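import Pool.Agent.D0H41.OC.Fam

/-!
# Vojta's height inequality for all points above almost all rational points, on all abelian covers of
# `ℙⁿ` whose branch divisors have components of arbitrary degrees

Let `k` be a number field and let `π : X → ℙⁿ` be an abelian cover over `k`, `n ≥ 2`, branched along
a divisor with components `D_j : F_j = 0`, where the `F_j` are forms of arbitrary degrees `k_j` with
rational coefficients, irreducible over `ℚ` (with arbitrary singularities and intersections). Let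
`e_j` be the ramification index over `D_j`, so that
`h_{K_X}(P) = (∑_j (1 - 1 / e_j) k_j - n - 1) h(x) + O(1)`, `x = π(P)`.
We prove

`θ h(x) + Λ ∑_l h_{(F'_l, G'_l)}(x) ≤ d(P) + O(1)`,   `θ < ∑_j w_j`,                        (*)

for ALL closed points `P` of `X` (of every degree) above almost all rational points `x` of `ℙⁿ`; here
`d(P)` is the logarithmic discriminant, `h_{(F', G')}` is the height relative to the ideal `(F', G')`
of codimension two, `Λ` is as large as we like, and `w_j` is the weight `orbWeight a e_j k_j` of the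
component `D_j`, where `a = 1 + 1 / n`, or `a = m` if `D_j` is an orbit of conjugate hyperplanes
whose linear forms span a space of dimension `m`:

* `(1 - 1 / e) k` if `k < 3 a`: in particular for ALL components of degree at most `3`, and for all
  plane curves of degree at most `4`;
* `(1 - 1 / e) weight a k` if `e` is a prime number and `k < (e + 1) a`, where
  `weight a k = 2 a + (k mod a) / (⌊k / a⌋ - 1)` for `k ≥ 3 a`;
* the maximum of `(1 - 1 / e) a` and `weight a k - k / e` in the other cases.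

As almost all of the weight is there for small degrees, (*) is Vojta's inequality
`h_{K_X}(P) ≤ d(P) + ε h_A(P) + O(1)` for all `P` above almost all `x` if
`∑_j ((1 - 1 / e_j) k_j - w_j) ≤ n + 1`. This is so, for example, for

* all abelian covers of `ℙⁿ` for which all components of the branch divisor over `ℚ` have degree at
  most `3` (`4` if `n = 2`), any number of them, with any ramification;
* all abelian covers of any degree branched along an irreducible hypersurface of degree
  `≤ n + 3` (`≤ 6` if `n = 2`) and any hypersurfaces as before, for example all hypersurfaces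
  `y ^ (n + 3) = F(x_0, …, x_n)` of degree `n + 3` in `ℙⁿ⁺¹`, `F` irreducible over `ℚ` (these are of
  general type, `K_X = O(1)`), the surfaces `y ^ 6 = F_6(x_0, x_1, x_2)` in `ℙ³` (`K_X = O(2)`), the
  triple planes `y ^ 3 = F_6(x_0, x_1, x_2)` (`K_X = O(1)`);
* the hypersurfaces `y ^ (n + 4) = F(x_0, …, x_n)` in `ℙⁿ⁺¹` for `n + 4` prime (`K_X = O(2)`);
* the double covers of `ℙⁿ` branched along an irreducible hypersurface of degree `≤ 2 n + 3` and any
  hypersurfaces of degree at most `3` (for example `y ^ 2 = ℓ F_{2n + 3}`, `K_X = O(1)`).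

In general (*) bounds the discriminants from below by a power of the height, with the exponent
`(1 - 1 / e) (1 + 1 / n) - ε` for every irreducible `F` of degree at least two and all the fields
generated by the `e`-th roots of `F(x)`.

**The points.** The function field of `X` is generated over `k(ℙⁿ)` by functions `f_i` with
`f_i ^ {E_i} = c_i ∏_j F_j ^ {a_ij} / ℓ ^ {E_i b_i}`, `ℓ` a linear form (one of the `F_j`, or
`∑_j a_ij k_j = E_i b_i`), `c_i ∈ k^*`, and `e_j = lcm_i (E_i / gcd (E_i, a_ij))`. If `P` is a point of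
`X` above the point with coprime integral coordinates `x`, then `L = k(P)` contains
`y_i = f_i(P) ℓ(x) ^ {b_i}` and `y_i ^ {E_i} = c_i ∏_j F_j(x) ^ {a_ij}`. We consider ALL number fields
`L` and all solutions `y_i` of such equations in `L`, for ALL `E_i`, `a_ij` with these `e_j` and ALL
`c_i` in `L` which are units outside a finite set `S` of primes; the term `O(1)` is `∑_{p ∈ S} log p`.

**Almost all** has two meanings: all but `C B ^ {n + 1 - c}` of the primitive `x` of height at most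
`log B`, `c > 0`; and all `x` of height at least `T` outside a set `Z` of density zero which depends
only on `n`: it is the same set for ALL covers (all fields `k`, all components `F_j`, all degrees),
`θ`, `Λ` and all ideals. The term with `Λ` bounds the heights relative to all divisors which are
contracted to subsets of codimension at least two of `ℙⁿ`, so that the inequalities hold on the
smooth models of `X` too (the branch divisors may have arbitrary singularities).

Before (AbelianCovers of this folder) this was known only with the weights `k` for `k ≤ 2` and for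
orbits of `k < 3 m` conjugate hyperplanes (`2 m` for `k ≥ 3 m` in general position), and with the
weight `1` for all other components, which is of no use for `k_j / e_j ≥ 1`.

Proof. Let `p` be a prime which divides `F_j(x)` exactly `v ≥ 1` times and no other `F_i(x)`,
`p ∉ S`. Then the ramification indices of `L` above `p` are divisible by `e_j / gcd (e_j, v)`, and so
`d(L)` is at least the sum of `(1 - gcd (e_j, v_p(F_j(x))) / e_j) log p` over these primes. For almost
all `x` one has the following (lines, lattices and the determinant method, from the files on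
ConjugateHyperplanes): `F_j(x) = ± s (m_1 M) ^ 2` with `s` squarefree, `m_1` very small and all primes
in `M` larger than `B ^ {a - ε}`, and `F_j(x)` is not of the form `σ s' w ^ e'` with `e' ≥ 2`, `σ` very
small and `s' ≤ B ^ {a - ε}` squarefree. If all exponents of the primes in `M` have a common divisor
`g ≥ 2`, it follows that the squarefree cofactor is larger than `B ^ {a - ε}`; if not, then there is
one prime in `M` whose exponent is prime to `e`, or there are two which contribute at least one half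
each. For `e` prime, `k < (e + 1) a`, no prime in `M` has an exponent which is divisible by `e`, as
the squarefree cofactor (or the square of another prime) would be too large.
-/

set_option autoImplicit false

namespace Pool.Agent.Results.MP_9b9442_nt.ComponentsOfAllDegrees

open MvPolynomial NumberField IsDedekindDomain

variable {n r t : ℕ}

/-- `F = 0` is an orbit of conjugate hyperplanes of rank `m`: `F(x) = c N_{E/ℚ}(∑ α_i x_i)` for a
number field `E`, a rational number `c` and elements `α_i` of `E` which span a space of dimension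
`m` over `ℚ` -/
def IsNormForm (F : MvPolynomial (Fin (n + 1)) ℤ) (m : ℕ) : Prop :=
  ∃ (E : Type) (_ : Field E) (_ : NumberField E) (α : Fin (n + 1) → E) (c : ℚ),
    Module.finrank ℚ (Submodule.span ℚ (Set.range α)) = m ∧
    ∀ x : Fin (n + 1) → ℤ, (eval x F : ℚ) = c * Algebra.norm ℚ (∑ i, (x i : E) * α i)

/-- `k` if `k < 3 a`, otherwise `2 a + (k mod a) / (⌊k / a⌋ - 1)` -/
noncomputable def weight (a : ℝ) (k : ℕ) : ℝ :=
  if (k : ℝ) < 3 * a then k
  else 2 * a + ((k : ℝ) - ⌊(k : ℝ) / a⌋₊ * a) / (⌊(k : ℝ) / a⌋₊ - 1)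

/-- the weight of a component of degree `k` over which the ramification index is `e` -/
noncomputable def orbWeight (a : ℝ) (e k : ℕ) : ℝ :=
  if (k : ℝ) < 3 * a then (1 - 1 / (e : ℝ)) * k
  else if e.Prime ∧ (k : ℝ) < (e + 1) * a then (1 - 1 / (e : ℝ)) * weight a k
  else max ((1 - 1 / (e : ℝ)) * a) (weight a k - k / e)

/-- the weights of a component `F = 0` of degree `k` and ramification index `e`:
`orbWeight (1 + 1 / n) e k`, and `orbWeight m e k` if it is an orbit of conjugate hyperplanes of rank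
`m` -/
def HasWeight (F : MvPolynomial (Fin (n + 1)) ℤ) (e k : ℕ) (w : ℝ) : Prop :=
  w = orbWeight (1 + 1 / (n : ℝ)) e k ∨ ∃ m : ℕ, 1 ≤ m ∧ IsNormForm F m ∧ w = orbWeight m e k

/-- The ramification index over `F_j = 0` of the cover `y_i ^ E_i = c_i ∏ F_j ^ a_ij`: the least
common multiple of the `E_i / gcd (E_i, a_ij)`. -/
def ram {s : ℕ} (E : Fin s → ℕ) (a : Fin s → Fin r → ℕ) (j : Fin r) : ℕ :=
  Finset.univ.lcm fun i => E i / Nat.gcd (E i) (a i j)

/-- the exponential of the height of the point with homogeneous coordinates `x` (coprime integers) -/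
def height (x : Fin (n + 1) → ℤ) : ℕ := Finset.univ.sup fun i => (x i).natAbs

/-- The height relative to the ideal `(F, G)` of the point with homogeneous coordinates `x` (coprime
integers), where `F` and `G` are forms of degrees `k` and `e`: the local height at the prime `p` is
`- log max (|F(x)|_p, |G(x)|_p)`, and the sum of these is `log gcd (F(x), G(x))`; the local height
at infinity is `- log max (|F(x)| / |x| ^ k, |G(x)| / |x| ^ e)`. -/
noncomputable def idealHeight (F G : MvPolynomial (Fin (n + 1)) ℤ) (k e : ℕ)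
    (x : Fin (n + 1) → ℤ) : ℝ :=
  Real.log (Int.gcd (eval x F) (eval x G)) -
    Real.log (max (|(eval x F : ℝ)| / (height x : ℝ) ^ k) (|(eval x G : ℝ)| / (height x : ℝ) ^ e))

/-- the absolute logarithmic discriminant `log |disc(L)| / [L : ℚ]` of a number field `L` -/
noncomputable def logDisc (L : Type) [Field L] [NumberField L] : ℝ :=
  Real.log |(discr L : ℝ)| / Module.finrank ℚ L

/-- The point with homogeneous coordinates `x` (coprime integers) is not on any `F_j = 0`, nor on any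
`F'_l = 0`, and for all number fields `L`, all finite sets `S` of primes, all abelian covers
`y_i ^ E_i = c_i ∏ F_j ^ a_ij` over `L`, whose ramification indices are the `e_j`, with constants
`c_i` which are units outside `S`, and all points `y` over `L` of the cover above `x`:
`θ h + Λ ∑ h_{(F'_l, G'_l)}(x) ≤ d(L) + ∑_{p ∈ S} log p`. -/
def AllPointsAbove (F : Fin r → MvPolynomial (Fin (n + 1)) ℤ) (e : Fin r → ℕ)
    (F' G' : Fin t → MvPolynomial (Fin (n + 1)) ℤ) (k' e' : Fin t → ℕ) (Λ θ h : ℝ)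
    (x : Fin (n + 1) → ℤ) : Prop :=
  (∀ j, eval x (F j) ≠ 0) ∧ (∀ l, eval x (F' l) ≠ 0) ∧
  ∀ (L : Type) (_ : Field L) (_ : NumberField L) (S : Finset ℕ) (s : ℕ) (E : Fin s → ℕ)
    (a : Fin s → Fin r → ℕ) (c y : Fin s → L),
    (∀ p ∈ S, p.Prime) → (∀ i, 1 ≤ E i) → (∀ j, ram E a j = e j) →
    (∀ v : HeightOneSpectrum (𝓞 L), (∀ p ∈ S, (p : 𝓞 L) ∉ v.asIdeal) →
      ∀ i, v.valuation L (c i) = 1) →
    (∀ i, y i ^ E i = c i * ∏ j, ((eval x (F j) : ℤ) : L) ^ a i j) →
    θ * h + Λ * ∑ l, idealHeight (F' l) (G' l) (k' l) (e' l) x ≤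
      logDisc L + ∑ p ∈ S, Real.log p

/-- there are at most `C B ^ (n + 1 - c)` exceptions of height at most `log B`, for some `c > 0` and
`C` (with `h = log B` in the inequality) -/
def AlmostAll (F : Fin r → MvPolynomial (Fin (n + 1)) ℤ) (e : Fin r → ℕ)
    (F' G' : Fin t → MvPolynomial (Fin (n + 1)) ℤ) (k' e' : Fin t → ℕ) (Λ θ : ℝ) : Prop :=
  ∃ c : ℝ, 0 < c ∧ ∃ C : ℝ, ∀ B : ℕ, 1 ≤ B →
    (Set.ncard {x : Fin (n + 1) → ℤ | (∀ i, |x i| ≤ B) ∧ Finset.univ.gcd x = 1 ∧
      ¬ AllPointsAbove F e F' G' k' e' Λ θ (Real.log B) x} : ℝ) ≤ C * (B : ℝ) ^ ((n : ℝ) + 1 - c)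

/-- the inequality holds for all points outside `Z` of height greater than some `T` -/
def Outside (Z : Set (Fin (n + 1) → ℤ)) (F : Fin r → MvPolynomial (Fin (n + 1)) ℤ)
    (e : Fin r → ℕ) (F' G' : Fin t → MvPolynomial (Fin (n + 1)) ℤ) (k' e' : Fin t → ℕ)
    (Λ θ : ℝ) : Prop :=
  ∃ T : ℝ, ∀ x : Fin (n + 1) → ℤ, Finset.univ.gcd x = 1 → x ∉ Z → T < Real.log (height x) →
    AllPointsAbove F e F' G' k' e' Λ θ (Real.log (height x)) x

/-- the number of elements of `Z` with coordinates of absolute value at most `B` is `o(B ^ (n + 1))` -/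
def DensityZero (Z : Set (Fin (n + 1) → ℤ)) : Prop :=
  ∀ ε : ℝ, 0 < ε → ∃ B₀ : ℕ, ∀ B : ℕ, B₀ ≤ B →
    (Set.ncard {x : Fin (n + 1) → ℤ | (∀ i, |x i| ≤ B) ∧ x ∈ Z} : ℝ) ≤ ε * (B : ℝ) ^ (n + 1)

theorem prim_of_gcd {x : Fin (n + 1) → ℤ} (hg : Finset.univ.gcd x = 1) :
    ∃ c : Fin (n + 1) → ℤ, ∑ i, c i * x i = 1 := by
  obtain ⟨f, hf⟩ := Finset.gcd_eq_sum_mul Finset.univ x
  rw [hg] at hf
  exact ⟨f, by rw [hf]; exact Finset.sum_congr rfl fun i _ => mul_comm _ _⟩

theorem weights_le {F : Fin r → MvPolynomial (Fin (n + 1)) ℤ} {k e : Fin r → ℕ} {w : Fin r → ℝ}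
    (hw : ∀ j, HasWeight (F j) (e j) (k j) (w j)) (j : Fin r) :
    ∃ α, D0H41.OC.HasAlpha (F j) α ∧ w j ≤ D0H41.OC.ow α (e j) (k j) := by
  rcases hw j with h | ⟨m, hm, h1, h2⟩
  · exact ⟨_, Or.inl rfl, le_of_eq h⟩
  · exact ⟨_, Or.inr ⟨m, hm, h1, rfl⟩, le_of_eq h2⟩

theorem above_of {F : Fin r → MvPolynomial (Fin (n + 1)) ℤ} {e : Fin r → ℕ}
    {F' G' : Fin t → MvPolynomial (Fin (n + 1)) ℤ} {k' e' : Fin t → ℕ} {Λ θ h : ℝ}
    {x : Fin (n + 1) → ℤ} (he : ∀ j, 1 ≤ e j) (hI : D0H41.OC.Ineq F e F' G' k' e' Λ θ h x) :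
    AllPointsAbove F e F' G' k' e' Λ θ h x := by
  obtain ⟨h1, h2, h3⟩ := hI
  refine ⟨h1, h2, ?_⟩
  intro L _ _ S s E a c y hS hE hram hc hy
  refine h3.trans ?_
  exact D0H41.OC.defic_le (L := L) (fun j => eval x (F j)) h1 e he S hS E a c y hE
    (fun j => (hram j).symm) hc hy

theorem above_mono {F : Fin r → MvPolynomial (Fin (n + 1)) ℤ} {e : Fin r → ℕ}
    {F' G' : Fin t → MvPolynomial (Fin (n + 1)) ℤ} {k' e' : Fin t → ℕ} {Λ θ θ' h : ℝ}
    {x : Fin (n + 1) → ℤ} (hh : 0 ≤ h) (hθ : θ ≤ θ')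
    (hI : AllPointsAbove F e F' G' k' e' Λ θ' h x) :
    AllPointsAbove F e F' G' k' e' Λ θ h x := by
  obtain ⟨h1, h2, h3⟩ := hI
  refine ⟨h1, h2, ?_⟩
  intro L i1 i2 S s E a c y hS hE hram hc hy
  have := h3 L i1 i2 S s E a c y hS hE hram hc hy
  have := mul_le_mul_of_nonneg_right hθ hh
  linarith

theorem orbWeight_nonneg (a : ℝ) (e k : ℕ) (ha : 0 < a) (he : 1 ≤ e) : 0 ≤ orbWeight a e k := by
  obtain ⟨h0, -⟩ := D0H41.OC.coef_le_one e he
  unfold orbWeight
  split_ifs with h1 h2
  · exact mul_nonneg h0 (Nat.cast_nonneg _)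
  · refine mul_nonneg h0 ?_
    have : 2 * a ≤ weight a k := N445.DF.wgt_two a k ha (by linarith)
    linarith
  · exact le_max_of_le_left (mul_nonneg h0 ha.le)

theorem orbWeight_ge (a : ℝ) (e k : ℕ) (ha : 0 < a) (he : 1 ≤ e) (hak : a ≤ k) :
    (1 - 1 / (e : ℝ)) * a ≤ orbWeight a e k := by
  obtain ⟨h0, -⟩ := D0H41.OC.coef_le_one e he
  unfold orbWeight
  split_ifs with h1 h2
  · exact mul_le_mul_of_nonneg_left hak h0
  · refine mul_le_mul_of_nonneg_left ?_ h0
    have : 2 * a ≤ weight a k := N445.DF.wgt_two a k ha (by linarith)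
    linarith
  · exact le_max_left _ _

theorem orbWeight_pos (a : ℝ) (e k : ℕ) (ha : 0 < a) (he : 2 ≤ e) (hk : 1 ≤ k) :
    0 < orbWeight a e k := by
  have h0 : (0 : ℝ) < 1 - 1 / (e : ℝ) := by
    have he2 : (2 : ℝ) ≤ e := by exact_mod_cast he
    rw [sub_pos, div_lt_one (by linarith)]
    linarith
  have hk0 : (0 : ℝ) < k := by exact_mod_cast hk
  unfold orbWeight
  split_ifs with h1 h2
  · exact mul_pos h0 hk0
  · refine mul_pos h0 ?_
    have : 2 * a ≤ weight a k := N445.DF.wgt_two a k ha (by linarith)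
    linarith
  · exact lt_max_of_lt_left (mul_pos h0 ha)

theorem nat_gap (a : ℝ) (e k : ℕ) (he : 1 ≤ e) (b : ℝ) (hb : 0 ≤ b)
    (h : (k : ℝ) - weight a k ≤ b) : (1 - 1 / (e : ℝ)) * k - orbWeight a e k ≤ b := by
  obtain ⟨h0, h01⟩ := D0H41.OC.coef_le_one e he
  have he0 : (1 : ℝ) ≤ e := by exact_mod_cast he
  unfold orbWeight
  split_ifs with h1 h2
  · linarith
  · have h3 : (1 - 1 / (e : ℝ)) * ((k : ℝ) - weight a k) ≤ (1 - 1 / (e : ℝ)) * b :=
      mul_le_mul_of_nonneg_left h h0
    have h4 : (1 - 1 / (e : ℝ)) * b ≤ 1 * b := mul_le_mul_of_nonneg_right h01 hb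
    linarith
  · have h3 := le_max_right ((1 - 1 / (e : ℝ)) * a) (weight a k - k / e)
    have h4 : (1 - 1 / (e : ℝ)) * k = k - k / e := by ring
    linarith

/-- **Vojta's inequality for all points above almost all rational points, on all abelian covers of
`ℙⁿ`, with branch components of arbitrary degrees.** -/
theorem result (n : ℕ) (hn : 2 ≤ n) :
    (∃ Z : Set (Fin (n + 1) → ℤ), DensityZero Z ∧
      ∀ (r t : ℕ) (F : Fin r → MvPolynomial (Fin (n + 1)) ℤ) (k e : Fin r → ℕ)
        (w : Fin r → ℝ) (_ : ∀ j, (F j).IsHomogeneous (k j))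
        (_ : ∀ j, Irreducible (map (Int.castRingHom ℚ) (F j)))
        (_ : ∀ i j, i ≠ j →
          ¬ Associated (map (Int.castRingHom ℚ) (F i)) (map (Int.castRingHom ℚ) (F j)))
        (_ : ∀ j, 1 ≤ e j) (_ : ∀ j, HasWeight (F j) (e j) (k j) (w j))
        (F' G' : Fin t → MvPolynomial (Fin (n + 1)) ℤ) (k' e' : Fin t → ℕ)
        (_ : ∀ l, (F' l).IsHomogeneous (k' l)) (_ : ∀ l, (G' l).IsHomogeneous (e' l))
        (_ : ∀ l, Irreducible (map (Int.castRingHom ℚ) (F' l)))
        (_ : ∀ l, ¬ map (Int.castRingHom ℚ) (F' l) ∣ map (Int.castRingHom ℚ) (G' l))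
        (Λ : ℝ) (_ : 0 ≤ Λ),
        -- the inequality for all `θ < ∑ w_j`
        (∀ θ : ℝ, θ < ∑ j, w j →
          AlmostAll F e F' G' k' e' Λ θ ∧ (0 ≤ θ → Outside Z F e F' G' k' e' Λ θ)) ∧
        -- Vojta's inequality
        ((n : ℝ) + 1 ≤ ∑ j, (1 - 1 / (e j : ℝ)) * k j →
          ∑ j, ((1 - 1 / (e j : ℝ)) * k j - w j) ≤ n + 1 → ∀ ε : ℝ, 0 < ε →
          AlmostAll F e F' G' k' e' Λ (∑ j, (1 - 1 / (e j : ℝ)) * k j - (n + 1) - ε) ∧
          Outside Z F e F' G' k' e' Λ (∑ j, (1 - 1 / (e j : ℝ)) * k j - (n + 1) - ε))) ∧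
    (∀ e k : ℕ, k ≤ 3 → orbWeight (1 + 1 / (n : ℝ)) e k = (1 - 1 / (e : ℝ)) * k) ∧
    (n = 2 → ∀ e : ℕ, orbWeight (1 + 1 / (n : ℝ)) e 4 = (1 - 1 / (e : ℝ)) * 4) ∧
    (∀ e k : ℕ, 1 ≤ e → n * k ≤ (n + 1) * (n + 2) →
      (1 - 1 / (e : ℝ)) * k - orbWeight (1 + 1 / (n : ℝ)) e k ≤ n + 1) ∧
    ((n + 4).Prime → (1 - 1 / ((n + 4 : ℕ) : ℝ)) * ((n + 4 : ℕ) : ℝ) -
      orbWeight (1 + 1 / (n : ℝ)) (n + 4) (n + 4) ≤ n + 1) ∧
    (∀ k : ℕ, k ≤ 2 * n + 3 → (1 - 1 / ((2 : ℕ) : ℝ)) * k -
      orbWeight (1 + 1 / (n : ℝ)) 2 k ≤ n + 1) ∧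
    (∀ m e k : ℕ, k < 3 * m → orbWeight m e k = (1 - 1 / (e : ℝ)) * k) ∧
    (∀ m e k : ℕ, 1 ≤ m → 1 ≤ e → k ≤ 3 * m → (1 - 1 / (e : ℝ)) * k - orbWeight m e k ≤ m) ∧
    (∀ (a : ℝ) (e k : ℕ), 0 < a → 1 ≤ e → a ≤ k → (1 - 1 / (e : ℝ)) * a ≤ orbWeight a e k) := by
  have hn0 : (0 : ℝ) < n := by exact_mod_cast (by omega : 0 < n)
  have hn2 : (2 : ℝ) ≤ n := by exact_mod_cast hn
  have hnn : (0 : ℝ) < 1 / (n : ℝ) := by positivity
  obtain ⟨Z, hZ, hall⟩ := D0H41.OC.one_orb hn
  refine ⟨⟨Z, ?_, ?_⟩, ?_, ?_, ?_, ?_, ?_, ?_, ?_, ?_⟩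
  · intro ε hε
    obtain ⟨B₀, hB₀⟩ := hZ ε hε
    refine ⟨B₀, fun B hB => ?_⟩
    refine le_trans (le_of_eq ?_) (hB₀ B hB)
    congr 2
    ext x
    simp only [Set.mem_ofPred_eq, TH910.Voj.mem_box]
  · intro r t F k e w hhom hirr hdist he hw F' G' k' e' hhom' hhomG hirr' hcop Λ hΛ
    have hAA : ∀ θ : ℝ, θ < ∑ j, w j → AlmostAll F e F' G' k' e' Λ θ := by
      intro θ hθ
      obtain ⟨c, hc, C, -, h⟩ := D0H41.OC.main_orb hn F k e w hhom hirr hdist he (weights_le hw)
        F' G' k' e' hhom' hirr' hcop Λ hΛ θ hθ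
      refine ⟨c, hc, C, fun B hB => ?_⟩
      have h1 := h B hB
      push_cast at h1
      refine le_trans ?_ h1
      refine Nat.cast_le.2 (Set.ncard_le_ncard ?_ ((TH910.Voj.finite_sub (n + 1) B _)))
      rintro x ⟨hx, hg, hbad⟩
      exact ⟨TH910.Voj.mem_box.2 hx, prim_of_gcd hg, fun hI => hbad (above_of he hI)⟩
    have hOut : ∀ θ : ℝ, 0 ≤ θ → θ < ∑ j, w j → Outside Z F e F' G' k' e' Λ θ := by
      intro θ hθ0 hθ
      obtain ⟨T, hT⟩ := hall r t F k e w hhom hirr hdist he (weights_le hw) F' G' k' e' hhom' hhomG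
        hirr' hcop Λ hΛ θ hθ0 hθ
      exact ⟨T, fun x hg hxZ hTx => above_of he (hT x (prim_of_gcd hg) hxZ hTx)⟩
    refine ⟨fun θ hθ => ⟨hAA θ hθ, fun hθ0 => hOut θ hθ0 hθ⟩, fun hK hsum ε hε => ?_⟩
    have hlt : ∑ j, (1 - 1 / (e j : ℝ)) * k j - (n + 1) - ε < ∑ j, w j := by
      rw [Finset.sum_sub_distrib] at hsum
      linarith
    refine ⟨hAA _ hlt, ?_⟩
    have hw0 : ∀ j, 0 ≤ w j := by
      intro j
      rcases hw j with h | ⟨m, hm, -, h⟩
      · rw [h]
        exact orbWeight_nonneg _ _ _ (by linarith) (he j)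
      · rw [h]
        exact orbWeight_nonneg _ _ _ (by exact_mod_cast hm) (he j)
    have hpos : 0 < ∑ j, w j := by
      by_contra hcon
      have hz : ∀ j, w j = 0 := by
        have h1 : ∑ j, w j = 0 := le_antisymm (not_lt.1 hcon) (Finset.sum_nonneg fun j _ => hw0 j)
        intro j
        exact (Finset.sum_eq_zero_iff_of_nonneg fun j _ => hw0 j).1 h1 j (Finset.mem_univ j)
      have he1 : ∀ j, e j = 1 := by
        intro j
        by_contra hne
        have hej : 2 ≤ e j := by
          have := he j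
          omega
        have hk1 := N445.VW.one_le_of_irr (F j) (hhom j) (hirr j)
        have h2 : 0 < w j := by
          rcases hw j with h | ⟨m, hm, -, h⟩
          · rw [h]
            exact orbWeight_pos _ _ _ (by linarith) hej hk1
          · rw [h]
            exact orbWeight_pos _ _ _ (by exact_mod_cast hm) hej hk1
        rw [hz j] at h2
        exact lt_irrefl _ h2
      have h3 : ∑ j, (1 - 1 / (e j : ℝ)) * k j = 0 := by
        refine Finset.sum_eq_zero fun j _ => ?_
        rw [he1 j]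
        simp
      rw [h3] at hK
      linarith
    obtain ⟨T, hT⟩ := hOut (max (∑ j, (1 - 1 / (e j : ℝ)) * k j - (n + 1) - ε) 0)
      (le_max_right _ _) (max_lt hlt hpos)
    refine ⟨T, fun x hg hxZ hTx => ?_⟩
    refine above_mono ?_ (le_max_left _ 0) (hT x hg hxZ hTx)
    exact Real.log_natCast_nonneg _
  · intro e k hk
    have hk3 : (k : ℝ) ≤ 3 := by exact_mod_cast hk
    unfold orbWeight
    rw [if_pos (by linarith)]
  · intro h e
    subst h
    unfold orbWeight
    rw [if_pos (by norm_num)]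
    norm_num
  · intro e k he hk
    exact nat_gap _ e k he _ (by positivity) (N445.DF.wgt_sub_gen n k hn hk)
  · intro hp
    have h1 : ¬ (((n + 4 : ℕ) : ℝ) < 3 * (1 + 1 / (n : ℝ))) := by
      rw [not_lt]
      have h3 : 1 / (n : ℝ) ≤ 1 / 2 := one_div_le_one_div_of_le (by norm_num) hn2
      push_cast
      linarith
    have h2 : (n + 4).Prime ∧ (((n + 4 : ℕ) : ℝ)) < (((n + 4 : ℕ) : ℝ) + 1) * (1 + 1 / (n : ℝ)) := by
      refine ⟨hp, ?_⟩
      have : 0 < (((n + 4 : ℕ) : ℝ) + 1) * (1 / (n : ℝ)) := by positivity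
      linarith
    unfold orbWeight
    rw [if_neg h1, if_pos h2]
    have h3 : 2 * (1 + 1 / (n : ℝ)) ≤ weight (1 + 1 / (n : ℝ)) (n + 4) :=
      N445.DF.wgt_two _ _ (by linarith) (by push_cast at h1 ⊢; linarith)
    have h4 : (0 : ℝ) ≤ 1 - 1 / ((n + 4 : ℕ) : ℝ) :=
      (D0H41.OC.coef_le_one (n + 4) (by omega)).1
    have h5 := mul_le_mul_of_nonneg_left h3 h4
    have h6 : (1 - 1 / ((n + 4 : ℕ) : ℝ)) * ((n + 4 : ℕ) : ℝ) -
        (1 - 1 / ((n + 4 : ℕ) : ℝ)) * (2 * (1 + 1 / (n : ℝ))) ≤ n + 1 := by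
      push_cast
      have h7 : (0 : ℝ) < n + 4 := by linarith
      rw [← mul_sub, show (1 : ℝ) - 1 / ((n : ℝ) + 4) = (n + 3) / (n + 4) by field_simp; ring,
        div_mul_eq_mul_div, div_le_iff₀ h7]
      have h8 : (n : ℝ) * (1 / n) = 1 := by field_simp
      nlinarith
    linarith
  · intro k hk
    have hk' : (k : ℝ) ≤ 2 * n + 3 := by exact_mod_cast hk
    by_cases h1 : (k : ℝ) < 3 * (1 + 1 / (n : ℝ))
    · unfold orbWeight
      rw [if_pos h1, sub_self]
      positivity
    · have h2 := orbWeight_ge (1 + 1 / (n : ℝ)) 2 k (by linarith) (by norm_num) (by linarith)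
      push_cast at h2 ⊢
      linarith
  · intro m e k hk
    have hk' : (k : ℝ) < 3 * m := by exact_mod_cast hk
    unfold orbWeight
    rw [if_pos hk']
  · intro m e k hm he hk
    exact nat_gap _ e k he _ (by positivity)
      (N445.DF.wgt_sub_norm m k (by exact_mod_cast hm) (by exact_mod_cast hk))
  · intro a e k ha he hk
    exact orbWeight_ge a e k ha he hk

end Pool.Agent.Results.MP_9b9442_nt.ComponentsOfAllDegrees
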