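import Pool.Agent.D0H41.SF.Final

/-!
# Many extensions of `ℚ` of degree `n` with Galois group `S_n`

For all large `n` the number `N_{n,ℚ}(X; S_n)` of the fields `L` of degree `n` inside an algebraic closure
of `ℚ` with Galois group `S_n` and `|disc L| ≤ X` is at least

  `X ^ (1 / 2 + 4 / (3 n) - 16 (log n)^2 / n^2)`   for all `X ≥ X₀(n)`.

The conjecture is `X`. Known before: `1 / 2 + 1 / n^2` (Ellenberg, Venkatesh 2006), `1 / 2 + 1 / n` and
`1 / 2 + 1 / (n - 1)` (Bhargava, Shankar, Wang, squarefree values of polynomial discriminants I and II).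

The proof does not use squarefree discriminants. Let `k = ⌊n / 2⌋`, `Y = V ^ 2`, and let `r` be a prime of
size `V ^ (k (n + 1 - k)) ≈ Y ^ (n ^ 2 / 8)`. For at least half of the residues `m` modulo `r` the lattice of
the integer polynomials `g` of degree `< k` with `g(m) ≡ 0` modulo `r` has a basis of the expected size with
respect to the boxes `|g_j| ≤ c V ^ (n - 2 j)`. The products of two such polynomials span the space of
the polynomials of degree `≤ 2 k - 2`, have a double zero `m` in the sense `b(m) ≡ 0` modulo `r ^ 2`,
`b'(m) ≡ 0` modulo `r`, and are short. Hence there are as many monic `f` with `|a_i| ≤ C Y ^ (n - i)`, without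
term of degree `n - 1`, in a fixed class modulo `q` (which forces the Galois group `S_n`), with
`r ^ 2 ∣ f(m)` and `r ∣ f'(m)`, as one expects. For these the element `(θ - m) h(θ - m) / r` is integral, where
`f(x + m) = x ^ 2 h(x) + f'(m) x + f(m)`; so the discriminant of `ℚ(θ)` is at most `disc f / r ^ 2`.

Multiplicities: a field of degree `n` with Galois group `S_n` and `J + 1` linearly independent integers of
size `≪ Y` (among them `1`) is spanned by the monomials of degree `≤ c` in them as soon as `c J + 1 ≥ n`
(any `J + 1` conjugates impose independent conditions), so its discriminant is at most `Y ^ (2 n c)`, and by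
the bound for the number of all fields (`MP_bf81c2_nt.LinnikExponent`) there are few such fields if `J` is
larger than `16 (log n)^2`. In the other fields the `θ` lie in a space of dimension `≤ J`, and different
`θ` differ by more than `V` in some conjugate, unless the field contains an irrational integer of size
`≤ V`, and there are few such fields. So a field contains at most `O(V ^ J)` of the `θ`.

Project SF: helper41 with helper15 (CAS, SMF), helper42 (SN), helper52 (ONE, PKF), helper87 (PAK, GM, CO, PR,
FAM, IDX).
-/

set_option autoImplicit false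

namespace Pool.Agent.Results.MP_af4c59_nt.SymmetricGroupLowerBound

/-- The fields `L` of degree `n` inside the algebraic closure of `ℚ` whose discriminant has absolute value
at most `X` and for which the Galois group of `ℚ` acts on the set of embeddings of `L` in the algebraic
closure as the full symmetric group. -/
def SymmetricFields (n : ℕ) (X : ℝ) : Set (IntermediateField ℚ (AlgebraicClosure ℚ)) :=
  {L | Module.finrank ℚ L = n ∧
    (∃ h : NumberField L, ((|@NumberField.discr L _ h| : ℤ) : ℝ) ≤ X) ∧
    ∀ τ : Equiv.Perm (L →ₐ[ℚ] AlgebraicClosure ℚ),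
      ∃ σ : AlgebraicClosure ℚ ≃ₐ[ℚ] AlgebraicClosure ℚ,
        ∀ φ : L →ₐ[ℚ] AlgebraicClosure ℚ, τ φ = σ.toAlgHom.comp φ}

/-- For all large `n` and all `X ≥ X₀(n)` the number of the fields of degree `n` with Galois group `S_n`
and discriminant of absolute value at most `X` is finite and at least
`X ^ (1 / 2 + 4 / (3 n) - 16 (log n)^2 / n^2)`. -/
theorem result : ∃ n₀ : ℕ, ∀ n : ℕ, n₀ ≤ n → ∃ X₀ : ℝ, ∀ X : ℝ, X₀ ≤ X →
    (SymmetricFields n X).Finite ∧
    X ^ ((1 : ℝ) / 2 + 4 / (3 * (n : ℝ)) - 16 * (Real.log n) ^ 2 / (n : ℝ) ^ 2) ≤
      ((SymmetricFields n X).ncard : ℝ) :=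
  Pool.Agent.D0H41.SF.final

end Pool.Agent.Results.MP_af4c59_nt.SymmetricGroupLowerBound
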